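import Mathlib
import Pool.Agent.N852.GR.Stm

/-!
Project BL (helper239): the lower bound `c B log B` for the number of the rational points of the
smooth complete intersections of divisors of type `(1,1)`, over every number field.
Statements of the parts. `d = finrank ℚ F`; `io x` is the integral vector `x` in `(F ⊗ ℝ)^n`, with the
norm `max_w max_i |x_i|_w`. Useful: `Pool/Agent/N852/GR/Lat.lean` (`lat_emb_le`, `lat_place_le`,
`lat_io_sub`, `lat_io_inj`, `lat_one_le`, `lat_fin`, `lat_pack`), `Pool/Agent/N852/GR/EngT.lean`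
(`cnt_le`, `ball_le`, with `hL : LatP F := latP F` of `Lat.lean`), `Pool/Agent/N852/GR/Ctt.lean`
(`w_le`, `io_le`), `Pool/Agent/U239/BI/Fin.lean` (`rep`: balanced integral representatives,
`point_eq`), `Pool/Agent/N852/GR/Pig2.lean` (rounding with `latticeBasis`).
-/

set_option autoImplicit false

namespace Pool.Agent.U239.BL

open scoped Classical
open NumberField Module Matrix
open Pool.Agent.N852.GR

variable (F : Type) [Field F] [NumberField F]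

variable {F} in
/-- the integral solutions of the equations `u_i · y = 0` -/
def KL {n k : ℕ} (u : Fin k → Fin n → 𝓞 F) : AddSubgroup (Fin n → 𝓞 F) where
  carrier := {y | ∀ i, u i ⬝ᵥ y = 0}
  zero_mem' := fun i => by simp
  add_mem' := fun {a b} ha hb i => by rw [dotProduct_add, ha i, hb i, add_zero]
  neg_mem' := fun {a} ha i => by rw [dotProduct_neg, ha i, neg_zero]

variable {F} in
/-- the vectors of `L` of size at most `R` -/
def bl {n : ℕ} (L : AddSubgroup (Fin n → 𝓞 F)) (R : ℝ) : Set (Fin n → 𝓞 F) :=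
  {x | x ∈ L ∧ ‖io x‖ ≤ R}

/-- RND: integral vectors near a given vector. (Round the coordinates with respect to
`mixedEmbedding.latticeBasis F`, `ZSpan.norm_fract_le`; compare `Pig2.lean`.) -/
def S_RND : Prop := ∃ C : ℝ, 1 ≤ C ∧ ∀ (n : ℕ) (z : Fin n → F), ∃ x : Fin n → 𝓞 F,
  ‖em z - io x‖ ≤ C

/-- PCK: packing. Proof: let `m = finrank ℤ L ≥ D`, let `b` be a basis of `L` over `ℤ`
(`L` is free); for `f : Fin m → Fin q` write `∑ f_i b_i = u_f + q v_f` with `‖io u_f‖ ≤ q ρ`; the vectors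
`u_f + q y`, `y ∈ bl L R`, are distinct (coordinates modulo `q`) and lie in `bl L (q (ρ + R))`. -/
def S_PCK : Prop := ∀ (n : ℕ) (L : AddSubgroup (Fin n → 𝓞 F)) (ρ : ℝ) (D : ℕ),
  D ≤ finrank ℤ L →
  (∀ q : ℕ, 1 ≤ q → ∀ y ∈ L, ∃ u ∈ L, ∃ v ∈ L, y = u + q • v ∧ ‖io u‖ ≤ q * ρ) →
  ∀ (q : ℕ) (R : ℝ), 1 ≤ q →
    (q : ℝ) ^ D * ((bl L R).ncard : ℝ) ≤ ((bl L (q * (ρ + R))).ncard : ℝ)

/-- KER: the vectors of the lattice `KL u` modulo `q` have small representatives. Proof: choose `k`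
columns with nonzero determinant `Δ`, let `B` be the corresponding square matrix, `E` the `0-1` matrix of the
choice, `U` the matrix of the `u_i`, and `Π = Δ - E adj(B) U`: then `U Π = 0`, so `Π` maps integral
vectors into `KL u`, `Π y = Δ y` for `y ∈ KL u`, and the entries of `Π` have size at most
`2 k! X ^ k` at all places. Given `y`, let `z = y / (q Δ)`, so `y = q Π z`; take `x` integral near `z`
(`S_RND`), `v = q Π (z - x)`, `w = Π x`. -/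
def S_KER : Prop := S_RND F → ∀ n k : ℕ, ∃ C : ℝ, 1 ≤ C ∧ ∀ (u : Fin k → Fin n → 𝓞 F) (X : ℝ),
  1 ≤ X → (LinearIndependent F fun i => co (u i)) → (∀ i, ‖io (u i)‖ ≤ X) →
  ∀ q : ℕ, 1 ≤ q → ∀ y ∈ KL u, ∃ v ∈ KL u, ∃ w ∈ KL u, y = v + q • w ∧
    ‖io v‖ ≤ q * (C * X ^ k)

/-- RNK: the rank of the lattice of solutions over `ℤ`. (Rank-nullity over `ℤ`.) -/
def S_RNK : Prop := ∀ (n k : ℕ) (u : Fin k → Fin n → 𝓞 F),
  finrank ℚ F * (n - k) ≤ finrank ℤ (KL u)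

/-- PIG: lower bound for the number of the solutions by the pigeonhole principle. Proof: there are
at least `c₀ R ^ (d n)` integral vectors `x` with `‖io x‖ ≤ R / 2` if `R ≥ R₀` (take combinations
of a `ℤ`-basis of `𝓞 F` with coefficients `0 ≤ m < q`); the vector of the `u_i · x` has size at most
`n X R`, so takes at most `(6 n X R + 6) ^ (d k)` values (`ball_le`); take differences. -/
def S_PIG : Prop := ∀ n k : ℕ, k ≤ n → ∃ c : ℝ, 0 < c ∧ ∀ (u : Fin k → Fin n → 𝓞 F)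
  (X R : ℝ), 1 ≤ X → 1 ≤ R → (∀ i, ‖io (u i)‖ ≤ X) →
    c * R ^ (finrank ℚ F * (n - k)) / X ^ (finrank ℚ F * k) ≤ ((bl (KL u) R).ncard : ℝ)

/-- MUL: the integral vectors on a line. Proof: for such a `y`, `H(Q) = H(co y) ≤ ‖io y‖ ^ d` (all
coordinates are integral). The integral vectors on the line map to the image of
`EE F → (Fin n → EE F)`, `t ↦ (t y₀ⱼ)ⱼ`, of dimension at most `d`, and the only one of size at most
`ρ = (H(Q)) ^ (1/d) / 2` is `0`; use `lat_pack` with this `ρ` and `B = R`. -/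
def S_MUL : Prop := ∀ n : ℕ, ∃ C : ℝ, 1 ≤ C ∧ ∀ (Q : Projectivization F (Fin n → F)) (R : ℝ),
  0 < R → (∀ y : Fin n → 𝓞 F, y ≠ 0 → (∃ c : F, co y = c • Q.rep) → ‖io y‖ ≤ R →
      Q.mulHeight ≤ R ^ finrank ℚ F) ∧
    ({y : Fin n → 𝓞 F | y ≠ 0 ∧ (∃ c : F, co y = c • Q.rep) ∧ ‖io y‖ ≤ R}.ncard : ℝ) ≤
      C * R ^ finrank ℚ F / Q.mulHeight

/-- ANA: from vectors to points. Proof: `T₀ = δ R ^ d`. The points with `h > T₀` contribute at most
`(C / δ) N(R ^ d)`, `N(T)` the number of the points with `h ≤ T`. The points with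
`h ≤ T₀` contribute at most `∑_{i ≤ J} C R ^ d 2 ^ (i+1) / T₀ * N(T₀ / 2 ^ i)`, `2 ^ J ≤ T₀`. And
`N(T₀ / 2 ^ i) ≤ a(R_i)`, `R_i = (C δ / 2 ^ i) ^ (1/d) R`, and the packing inequality for
`q = ⌊R / (ρ + R_i)⌋ ≥ R / (2 (ρ + R_i))` gives
`a(R_i) ≤ 4 ^ (d r) ((ρ / R) ^ (d r) + (C δ / 2 ^ i) ^ r) a(R)`. The sum is at most `a(R) / 4` if `δ` is
small and `R ≥ K ρ ^ r`, as `r ≥ 2`. -/
def S_ANA : Prop := ∀ (r d : ℕ) (C : ℝ), 2 ≤ r → 1 ≤ d → 1 ≤ C → ∃ c K : ℝ, 0 < c ∧ 1 ≤ K ∧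
  ∀ (α : Type) (h : α → ℝ) (a : ℝ → ℝ) (ρ : ℝ) (S : ℝ → Finset α), 1 ≤ ρ →
    (∀ x, 1 ≤ h x) → (∀ T x, x ∈ S T ↔ h x ≤ T) → Monotone a → (∀ R, 0 ≤ R → 1 ≤ a R) →
    (∀ T : ℝ, 1 ≤ T → ((S T).card : ℝ) ≤ a ((C * T) ^ (1 / (d : ℝ)))) →
    (∀ R : ℝ, 1 ≤ R → a R ≤ 1 + ∑ x ∈ S (R ^ d), C * R ^ d / h x) →
    (∀ (q : ℕ) (R : ℝ), 1 ≤ q → 0 ≤ R → (q : ℝ) ^ (d * r) * a R ≤ a (q * (ρ + R))) →
    ∀ R : ℝ, K * ρ ^ r ≤ R → 2 ≤ a R → c * a R ≤ ((S (R ^ d)).card : ℝ)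

/-- LOG: the sum over dyadic ranges. Proof: choose `D` with `c D ^ N ≥ 2 C`; the elements of `G` with
`D ^ j < h ≤ D ^ (j+1)` contribute at least `c / 2`, for `D ^ j ≥ T₀`. -/
def S_LOG : Prop := ∀ (N : ℕ) (α : Type) (h : α → ℝ) (G : Set α) (c C T₀ : ℝ) (S : ℝ → Finset α),
  1 ≤ N → 0 < c → (∀ x, 1 ≤ h x) → (∀ T x, x ∈ S T ↔ x ∈ G ∧ h x ≤ T) →
  (∀ T : ℝ, T₀ ≤ T → c * T ^ N ≤ ((S T).card : ℝ)) →
  (∀ T : ℝ, 1 ≤ T → ((S T).card : ℝ) ≤ C * T ^ N) →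
  ∃ c' X₀ : ℝ, 0 < c' ∧ ∀ X : ℝ, X₀ ≤ X → c' * Real.log X ≤ ∑ x ∈ S X, 1 / h x ^ N

/-- BPT: few bad points. Proof: balanced integral representatives (`rep` of `U239/BI/Fin.lean`,
injective by `point_eq`) and `BadP` with `R = n - k + 1`: for bad `b` the rank is at most `k - 1`, so
every term of the sum is at least `μ ^ d`. -/
def S_BPT : Prop := BadP F → ∀ (n k : ℕ) (A : Fin k → Matrix (Fin n) (Fin n) (𝓞 F)), 1 ≤ k →
  k ≤ n → RC (cm A) (n - k + 1) → ∃ C : ℝ, 1 ≤ C ∧ ∀ T : ℝ, 1 ≤ T →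
    {Q : Projectivization F (Fin n → F) |
      ¬ LinearIndependent F (fun i => cm A i *ᵥ Q.rep) ∧ Q.mulHeight ≤ T}.Finite ∧
    ({Q : Projectivization F (Fin n → F) |
      ¬ LinearIndependent F (fun i => cm A i *ᵥ Q.rep) ∧ Q.mulHeight ≤ T}.ncard : ℝ) ≤
        C * T ^ (2 * k - 2)

end Pool.Agent.U239.BL
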