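import Mathlib
import Pool.Agent.U239.BL.Stm

/-!
Project BL: rounding and the rank of the lattice of solutions.
-/

set_option autoImplicit false

namespace Pool.Agent.U239.BL

open scoped Classical
open NumberField Module Matrix
open Pool.Agent.N852.GR

variable (F : Type) [Field F] [NumberField F]

theorem t_RND : S_RND F := by
  set b := mixedEmbedding.latticeBasis F with hb
  have h0 : 0 ≤ ∑ i, ‖b i‖ := Finset.sum_nonneg fun _ _ => norm_nonneg _
  refine ⟨∑ i, ‖b i‖ + 1, by linarith, fun n z => ?_⟩
  have h : ∀ i, ∃ γ : 𝓞 F, mixedEmbedding F (γ : F) =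
      (ZSpan.floor b (mixedEmbedding F (z i)) : EE F) := by
    intro i
    have h1 := (ZSpan.floor b (mixedEmbedding F (z i))).2
    rw [hb, mixedEmbedding.mem_span_latticeBasis] at h1
    obtain ⟨γ, hγ⟩ := h1
    exact ⟨γ, hγ⟩
  choose x hx using h
  refine ⟨x, ?_⟩
  rw [pi_norm_le_iff_of_nonneg (by linarith)]
  intro i
  have h2 : (em z - io x) i = ZSpan.fract b (mixedEmbedding F (z i)) := by
    rw [ZSpan.fract_apply]
    show mixedEmbedding F (z i) - mixedEmbedding F (x i : F) = _
    rw [hx]
  rw [h2]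
  exact (ZSpan.norm_fract_le b _).trans (by linarith)

variable {F} in
/-- the values of the forms -/
def mp {n k : ℕ} (u : Fin k → Fin n → 𝓞 F) : (Fin n → 𝓞 F) →ₗ[ℤ] (Fin k → 𝓞 F) where
  toFun y := fun i => u i ⬝ᵥ y
  map_add' := fun a b => by
    funext i
    exact dotProduct_add _ _ _
  map_smul' := fun c a => by
    funext i
    exact dotProduct_smul _ _ _

theorem t_RNK : S_RNK F := by
  intro n k u
  have h1 : finrank ℤ (LinearMap.range (mp u)) + finrank ℤ (LinearMap.ker (mp u)) = finrank ℤ (Fin n → 𝓞 F) := by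
    rw [← (LinearMap.quotKerEquivRange (mp u)).finrank_eq]
    exact Submodule.finrank_quotient_add_finrank _
  have h2 : finrank ℤ (LinearMap.range (mp u)) ≤ finrank ℤ (Fin k → 𝓞 F) :=
    Submodule.finrank_le _
  have h3 : ∀ m : ℕ, finrank ℤ (Fin m → 𝓞 F) = finrank ℚ F * m := by
    intro m
    rw [Module.finrank_pi_fintype]
    simp only [Finset.sum_const, Finset.card_univ, Fintype.card_fin, smul_eq_mul,
      RingOfIntegers.rank]
    ring
  have h4 : finrank ℤ (KL u) = finrank ℤ (LinearMap.ker (mp u)) := by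
    let e : (KL u) ≃+ (LinearMap.ker (mp u)) :=
      { toFun := fun y => ⟨y.1, by
          rw [LinearMap.mem_ker]
          funext i
          exact y.2 i⟩
        invFun := fun y => ⟨y.1, fun i => congrFun (LinearMap.mem_ker.1 y.2) i⟩
        left_inv := fun _ => rfl
        right_inv := fun _ => rfl
        map_add' := fun _ _ => rfl }
    exact LinearEquiv.finrank_eq e.toIntLinearEquiv
  rw [h3] at h1 h2
  rw [h4, Nat.mul_sub]
  omega

end Pool.Agent.U239.BL
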