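import Mathlib
import Pool.Agent.U239.BL.Bas
import Pool.Agent.U239.BI.Fin
import Pool.Agent.N852.GR.Lat
import Pool.Agent.N852.GR.EngT

/-!
Project BL: the number of the rational points of a linear subspace, lower bound.
-/

set_option autoImplicit false

namespace Pool.Agent.U239.BL

open scoped Classical
open NumberField Module Matrix
open Pool.Agent.N852.GR

variable {F : Type} [Field F] [NumberField F] {n k : ℕ}

theorem one_le_ht (Q : Projectivization F (Fin n → F)) : 1 ≤ Q.mulHeight := by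
  conv_rhs => rw [← Q.mk_rep, Projectivization.mulHeight_mk]
  exact Height.one_le_mulHeight _

theorem root {T : ℝ} (hT : 0 ≤ T) {d : ℕ} (hd : 0 < d) : (T ^ (1 / (d : ℝ))) ^ d = T := by
  rw [← Real.rpow_natCast, ← Real.rpow_mul hT, one_div,
    inv_mul_cancel₀ (by exact_mod_cast hd.ne'), Real.rpow_one]

/-- representatives -/
theorem rep' : ∃ C : ℝ, 1 ≤ C ∧ ∀ (n : ℕ) (P : Projectivization F (Fin n → F)),
    ∃ (lam : F) (y : Fin n → 𝓞 F), lam ≠ 0 ∧ co y = lam • P.rep ∧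
      ‖io y‖ ^ finrank ℚ F ≤ C * P.mulHeight := by
  refine ⟨√|(discr F : ℝ)| + 1, ?_, fun n P => Pool.Agent.U239.BI.rep P⟩
  have : 0 ≤ √|(discr F : ℝ)| := Real.sqrt_nonneg _
  linarith

theorem north (n : ℕ) (T : ℝ) : {Q : Projectivization F (Fin n → F) | Q.mulHeight ≤ T}.Finite := by
  obtain ⟨C, hC, hr⟩ := rep' (F := F)
  choose lam y h0 h1 h2 using hr n
  have hd : 0 < finrank ℚ F := finrank_pos
  refine Set.Finite.of_finite_image (f := y) ((lat_fin n ((C * T) ^ (1 / (finrank ℚ F : ℝ)))).subset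
    ?_) ?_
  · rintro _ ⟨Q, hQ, rfl⟩
    have hT : 1 ≤ T := (one_le_ht Q).trans hQ
    have h3 : ‖io (y Q)‖ ^ finrank ℚ F ≤ ((C * T) ^ (1 / (finrank ℚ F : ℝ))) ^ finrank ℚ F := by
      rw [root (by positivity) hd]
      exact (h2 Q).trans (mul_le_mul_of_nonneg_left hQ (by linarith))
    exact le_of_pow_le_pow_left₀ hd.ne' (by positivity) h3
  · intro Q _ Q' _ h
    exact Pool.Agent.U239.BI.point_eq (h0 Q) (h0 Q') (h1 Q) (by rw [h]; exact h1 Q')

omit [NumberField F] in
theorem mem_KL_of (u : Fin k → Fin n → 𝓞 F) (y : Fin n → 𝓞 F)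
    (h : ∀ i, co (u i) ⬝ᵥ co y = 0) : y ∈ KL u := by
  intro i
  have h4 : ((u i ⬝ᵥ y : 𝓞 F) : F) = 0 := by
    rw [← h i]
    simp only [dotProduct, co]
    push_cast
    rfl
  exact_mod_cast h4

omit [NumberField F] in
theorem of_mem_KL (u : Fin k → Fin n → 𝓞 F) (y : Fin n → 𝓞 F) (h : y ∈ KL u) (i : Fin k) :
    co (u i) ⬝ᵥ co y = 0 := by
  have h4 : ((u i ⬝ᵥ y : 𝓞 F) : F) = 0 := by
    rw [h i]
    rfl
  rw [← h4]
  simp only [dotProduct, co]
  push_cast
  rfl

variable (F) in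
/-- CON -/
def S_CON : Prop := ∀ n k : ℕ, k + 2 ≤ n → ∃ c K : ℝ, 0 < c ∧ 1 ≤ K ∧
  ∀ (u : Fin k → Fin n → 𝓞 F) (X : ℝ), 1 ≤ X → (LinearIndependent F fun i => co (u i)) →
    (∀ i, ‖io (u i)‖ ≤ X) → ∀ T : ℝ, K * X ^ (finrank ℚ F * (k * (n - k))) ≤ T →
      c * T ^ (n - k) / X ^ (finrank ℚ F * k) ≤
        ({Q : Projectivization F (Fin n → F) |
          (∀ i, co (u i) ⬝ᵥ Q.rep = 0) ∧ Q.mulHeight ≤ T}.ncard : ℝ)

theorem t_CON (hP : S_PCK F) (hK : S_KER F) (hG : S_PIG F) (hM : S_MUL F) (hA : S_ANA) :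
    S_CON F := by
  intro n k hkn
  obtain ⟨C1, hC1, hker⟩ := hK (t_RND F) n k
  obtain ⟨c2, hc2, hpig⟩ := hG n k (by omega)
  obtain ⟨C3, hC3, hmul⟩ := hM n
  obtain ⟨C4, hC4, hrep⟩ := rep' (F := F)
  set d := finrank ℚ F with hddef
  have hd : 0 < d := finrank_pos
  set r := n - k with hr
  have hr2 : 2 ≤ r := by omega
  set C : ℝ := C3 + C4 with hC
  have hC31 : C3 ≤ C := by linarith
  have hC41 : C4 ≤ C := by linarith
  have hC1' : 1 ≤ C := by linarith
  obtain ⟨c, K, hc, hK1, hana⟩ := hA r d C hr2 hd hC1'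
  refine ⟨c * c2, (K * C1 ^ r) ^ d + 2 / c2, by positivity, ?_, ?_⟩
  · have h1 : (1 : ℝ) ≤ (K * C1 ^ r) ^ d :=
      one_le_pow₀ (one_le_mul_of_one_le_of_one_le hK1 (one_le_pow₀ hC1))
    have h2 : 0 < 2 / c2 := by positivity
    linarith
  intro u X hX hu huX T hT
  have hX0 : 0 < X := by linarith
  have hXe : (1 : ℝ) ≤ X ^ (d * (k * r)) := one_le_pow₀ hX
  have hKC : (1 : ℝ) ≤ (K * C1 ^ r) ^ d :=
      one_le_pow₀ (one_le_mul_of_one_le_of_one_le hK1 (one_le_pow₀ hC1))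
  have hT1 : 1 ≤ T := by
    refine le_trans ?_ hT
    have h2 : 0 < 2 / c2 := by positivity
    nlinarith
  have hT0 : 0 < T := by linarith
  -- the points
  let α : Type := {Q : Projectivization F (Fin n → F) // ∀ i, co (u i) ⬝ᵥ Q.rep = 0}
  let h : α → ℝ := fun Q => Q.1.mulHeight
  have hfin : ∀ T : ℝ, {x : α | h x ≤ T}.Finite := fun T =>
    Set.Finite.of_finite_image (f := Subtype.val) ((north n T).subset (by
      rintro _ ⟨x, hx, rfl⟩
      exact hx)) Subtype.val_injective.injOn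
  let S : ℝ → Finset α := fun T => (hfin T).toFinset
  have hS : ∀ T x, x ∈ S T ↔ h x ≤ T := fun T x => by
    simp only [S, Set.Finite.mem_toFinset]
    rfl
  have hblf : ∀ R : ℝ, (bl (KL u) R).Finite := fun R => (lat_fin n R).subset fun x hx => hx.2
  let a : ℝ → ℝ := fun R => ((bl (KL u) R).ncard : ℝ)
  have ha : ∀ R, a R = ((bl (KL u) R).ncard : ℝ) := fun _ => rfl
  set ρ : ℝ := C1 * X ^ k with hρ
  have hρ1 : 1 ≤ ρ := one_le_mul_of_one_le_of_one_le hC1 (one_le_pow₀ hX)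
  have hH1 : ∀ x, 1 ≤ h x := fun x => one_le_ht x.1
  have hmono : Monotone a := by
    intro R R' hRR
    rw [ha, ha]
    have h1 : bl (KL u) R ⊆ bl (KL u) R' := fun x hx => ⟨hx.1, hx.2.trans hRR⟩
    exact_mod_cast Set.ncard_le_ncard h1 (hblf R')
  have ha1 : ∀ R, 0 ≤ R → 1 ≤ a R := by
    intro R hR
    rw [ha]
    have h1 : 0 < (bl (KL u) R).ncard := by
      rw [Set.ncard_pos (hblf R)]
      refine ⟨0, (KL u).zero_mem, ?_⟩
      have : io (0 : Fin n → 𝓞 F) = 0 := by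
        have := lat_io_sub (0 : Fin n → 𝓞 F) 0
        rwa [sub_self, sub_self] at this
      rw [this, norm_zero]
      exact hR
    exact_mod_cast h1
  have hpts : ∀ T : ℝ, 1 ≤ T → ((S T).card : ℝ) ≤ a ((C * T) ^ (1 / (d : ℝ))) := by
    intro T hT
    choose lam y h0 h1 h2 using hrep n
    have hinj : Set.InjOn (fun x : α => y x.1) (S T : Set α) := by
      intro x _ x' _ hxx
      apply Subtype.ext
      have hxx' : y x.1 = y x'.1 := hxx
      exact Pool.Agent.U239.BI.point_eq (h0 x.1) (h0 x'.1) (h1 x.1) (by rw [hxx']; exact h1 x'.1)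
    have hmaps : ∀ x ∈ S T, y x.1 ∈ bl (KL u) ((C * T) ^ (1 / (d : ℝ))) := by
      intro x hx
      refine ⟨mem_KL_of u _ fun i => ?_, ?_⟩
      · rw [h1, dotProduct_smul, x.2 i, smul_zero]
      · have hx' : x.1.mulHeight ≤ T := (hS T x).1 hx
        have h3 : ‖io (y x.1)‖ ^ d ≤ ((C * T) ^ (1 / (d : ℝ))) ^ d := by
          rw [root (by positivity) hd]
          refine (h2 x.1).trans ?_
          have h5 := one_le_ht x.1
          gcongr
        exact le_of_pow_le_pow_left₀ hd.ne' (by positivity) h3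
    rw [ha, Set.ncard_eq_toFinset_card _ (hblf _)]
    have h4 := Finset.card_le_card_of_injOn (s := S T) (t := (hblf ((C * T) ^ (1 / (d : ℝ)))).toFinset)
      (fun x : α => y x.1) (fun x hx => by
        rw [Finset.mem_coe, Set.Finite.mem_toFinset]
        exact hmaps x hx) hinj
    exact_mod_cast h4
  have hvec : ∀ R : ℝ, 1 ≤ R → a R ≤ 1 + ∑ x ∈ S (R ^ d), C * R ^ d / h x := by
    intro R hR
    have hR0 : 0 < R := by linarith
    have hLf : ∀ x : α, {y : Fin n → 𝓞 F | y ≠ 0 ∧ (∃ c : F, co y = c • x.1.rep) ∧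
        ‖io y‖ ≤ R}.Finite := fun x => by
      apply (lat_fin n R).subset
      intro y hy
      exact hy.2.2
    let L : α → Finset (Fin n → 𝓞 F) := fun x => (hLf x).toFinset
    have hL : ∀ x : α, ((L x).card : ℝ) ≤ C * R ^ d / h x := by
      intro x
      have h1 := (hmul x.1 R hR0).2
      rw [Set.ncard_eq_toFinset_card _ (hLf x)] at h1
      refine h1.trans ?_
      have h5 := hH1 x
      have h6 : 0 < x.1.mulHeight := by
        have := one_le_ht x.1
        linarith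
      show C3 * R ^ d / x.1.mulHeight ≤ C * R ^ d / x.1.mulHeight
      gcongr
    have hsub : (hblf R).toFinset ⊆ {0} ∪ (S (R ^ d)).biUnion L := by
      intro y hy
      rw [Set.Finite.mem_toFinset] at hy
      rw [Finset.mem_union, Finset.mem_singleton, Finset.mem_biUnion]
      by_cases hy0 : y = 0
      · exact Or.inl hy0
      · right
        have hcy : co y ≠ 0 := Ctt.co_ne hy0
        obtain ⟨b, hb⟩ := Projectivization.exists_smul_eq_mk_rep F (co y) hcy
        have hb' : (Projectivization.mk F (co y) hcy).rep = (b : F) • co y := hb.symm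
        have hyc : co y = ((b : F)⁻¹) • (Projectivization.mk F (co y) hcy).rep := by
          rw [hb', smul_smul, inv_mul_cancel₀ b.ne_zero, one_smul]
        refine ⟨⟨Projectivization.mk F (co y) hcy, fun i => ?_⟩, ?_, ?_⟩
        · rw [hb', dotProduct_smul, of_mem_KL u y hy.1 i, smul_zero]
        · rw [hS]
          exact (hmul _ R hR0).1 y hy0 ⟨_, hyc⟩ hy.2
        · simp only [L, Set.Finite.mem_toFinset]
          exact ⟨hy0, ⟨_, hyc⟩, hy.2⟩
    rw [ha, Set.ncard_eq_toFinset_card _ (hblf R)]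
    have h1 := (Finset.card_le_card hsub).trans (Finset.card_union_le _ _)
    rw [Finset.card_singleton] at h1
    have h2 : (((S (R ^ d)).biUnion L).card : ℝ) ≤ ∑ x ∈ S (R ^ d), C * R ^ d / h x := by
      have h4 : (((S (R ^ d)).biUnion L).card : ℝ) ≤ ∑ x ∈ S (R ^ d), ((L x).card : ℝ) := by
        exact_mod_cast Finset.card_biUnion_le (s := S (R ^ d)) (t := L)
      exact h4.trans (Finset.sum_le_sum fun x _ => hL x)
    have h3 : (((hblf R).toFinset).card : ℝ) ≤ 1 + (((S (R ^ d)).biUnion L).card : ℝ) := by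
      exact_mod_cast h1
    linarith
  have hpack : ∀ (q : ℕ) (R : ℝ), 1 ≤ q → 0 ≤ R → (q : ℝ) ^ (d * r) * a R ≤ a (q * (ρ + R)) := by
    intro q R hq _
    exact hP n (KL u) ρ (d * r) (t_RNK F n k u) (fun q hq y hy => by
      obtain ⟨v, hv, w, hw, h1, h2⟩ := hker u X hX hu huX q hq y hy
      exact ⟨v, hv, w, hw, h1, h2⟩) q R hq
  -- conclusion
  set R : ℝ := T ^ (1 / (d : ℝ)) with hRdef
  have hRd : R ^ d = T := root hT0.le hd
  have hR1 : 1 ≤ R := Real.one_le_rpow hT1 (by positivity)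
  have hpig' := hpig u X R hX hR1 huX
  have hTr : R ^ (d * r) = T ^ r := by rw [pow_mul, hRd]
  rw [hTr] at hpig'
  have hbig : K * ρ ^ r ≤ R := by
    have h1 : (K * ρ ^ r) ^ d ≤ R ^ d := by
      rw [hRd]
      refine le_trans ?_ hT
      have e : (K * ρ ^ r) ^ d = (K * C1 ^ r) ^ d * X ^ (d * (k * r)) := by
        rw [hρ]
        ring
      rw [e]
      have h2 : 0 < 2 / c2 := by positivity
      nlinarith
    exact le_of_pow_le_pow_left₀ hd.ne' (by positivity) h1
  have h2a : 2 ≤ a R := by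
    refine le_trans ?_ hpig'
    rw [le_div_iff₀ (by positivity)]
    have h1 : T ≤ T ^ r := le_self_pow₀ hT1 (by omega)
    have h3 : X ^ (d * k) ≤ X ^ (d * (k * r)) := by
      apply pow_le_pow_right₀ hX
      have : k ≤ k * r := Nat.le_mul_of_pos_right k (by omega)
      exact Nat.mul_le_mul_left d this
    have h4 : 2 / c2 * X ^ (d * (k * r)) ≤ T := by
      refine le_trans ?_ hT
      have h2 : 0 ≤ (K * C1 ^ r) ^ d := by positivity
      nlinarith
    have h5 : 2 * X ^ (d * (k * r)) ≤ c2 * T := by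
      rw [div_mul_eq_mul_div, div_le_iff₀ hc2] at h4
      linarith
    nlinarith
  have hfinal := hana α h a ρ S hρ1 hH1 hS hmono ha1 hpts hvec hpack R hbig h2a
  rw [hRd] at hfinal
  have hcard : ((S T).card : ℝ) = ({Q : Projectivization F (Fin n → F) |
          (∀ i, co (u i) ⬝ᵥ Q.rep = 0) ∧ Q.mulHeight ≤ T}.ncard : ℝ) := by
    have h1 : {Q : Projectivization F (Fin n → F) |
          (∀ i, co (u i) ⬝ᵥ Q.rep = 0) ∧ Q.mulHeight ≤ T} = Subtype.val '' {x : α | h x ≤ T} := by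
      ext Q
      constructor
      · rintro ⟨h1, h2⟩
        exact ⟨⟨Q, h1⟩, h2, rfl⟩
      · rintro ⟨x, hx, rfl⟩
        exact ⟨x.2, hx⟩
    rw [h1, Set.ncard_image_of_injective _ Subtype.val_injective,
      Set.ncard_eq_toFinset_card _ (hfin T)]
  rw [← hcard]
  refine le_trans ?_ hfinal
  calc c * c2 * T ^ r / X ^ (d * k) = c * (c2 * T ^ r / X ^ (d * k)) := by ring
    _ ≤ c * a R := mul_le_mul_of_nonneg_left hpig' hc.le

end Pool.Agent.U239.BL
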