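import Mathlib
import Pool.Agent.U239.BL.Cnt
import Pool.Agent.U239.BI.Exu
import Pool.Agent.N852.GR.Glue

/-!
Project BL: the count of the points of the complete intersection, lower bound.
-/

set_option autoImplicit false

namespace Pool.Agent.U239.BL

open scoped Classical
open NumberField Module Matrix
open Pool.Agent.N852.GR
open Pool.Agent.U239.BI (tr)

variable {F : Type} [Field F] [NumberField F] {N k : ℕ}

/-- the size of the equations -/
theorem dr_bound (B : Fin k → Matrix (Fin N) (Fin N) (𝓞 F)) : ∃ C : ℝ, 1 ≤ C ∧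
    ∀ (a : Fin N → 𝓞 F) (i : Fin k), ‖io (dr B a i)‖ ≤ C * ‖io a‖ := by
  set S : ℝ := ∑ i, ∑ j, ∑ l, ∑ w : InfinitePlace F, w ((B i j l : 𝓞 F) : F) with hS
  have hS0 : 0 ≤ S := Finset.sum_nonneg fun i _ => Finset.sum_nonneg fun j _ =>
    Finset.sum_nonneg fun l _ => Finset.sum_nonneg fun w _ => apply_nonneg w _
  refine ⟨1 + S, by linarith, fun a i => ?_⟩
  have ha : 0 ≤ ‖io a‖ := norm_nonneg _
  apply Ctt.io_le _ _ (by positivity)
  intro j w
  have h1 : ((dr B a i j : 𝓞 F) : F) = ∑ l, (B i j l : F) * (a l : F) := by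
    simp only [dr, Matrix.mulVec, dotProduct]
    push_cast
    rfl
  rw [h1]
  have h2 : w (∑ l, (B i j l : F) * (a l : F)) ≤ ∑ l, w (B i j l : F) * w (a l : F) := by
    have h3 : w (∑ l, (B i j l : F) * (a l : F)) ≤ ∑ l, w ((B i j l : F) * (a l : F)) :=
      w.1.sum_le Finset.univ fun l => (B i j l : F) * (a l : F)
    refine h3.trans (Finset.sum_le_sum fun l _ => ?_)
    rw [map_mul]
  refine h2.trans ?_
  have h3 : ∑ l, w (B i j l : F) * w (a l : F) ≤ (∑ l, w (B i j l : F)) * ‖io a‖ := by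
    rw [Finset.sum_mul]
    refine Finset.sum_le_sum fun l _ => ?_
    exact mul_le_mul_of_nonneg_left (Ctt.w_le a l w) (apply_nonneg w _)
  refine h3.trans ?_
  have h4 : ∑ l, w (B i j l : F) ≤ S := by
    have e1 : ∀ l, w (B i j l : F) ≤ ∑ w : InfinitePlace F, w ((B i j l : 𝓞 F) : F) := fun l =>
      Finset.single_le_sum (f := fun w : InfinitePlace F => w ((B i j l : 𝓞 F) : F))
        (fun w _ => apply_nonneg w _) (Finset.mem_univ w)
    have e2 : ∑ l, w (B i j l : F) ≤ ∑ l, ∑ w : InfinitePlace F, w ((B i j l : 𝓞 F) : F) :=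
      Finset.sum_le_sum fun l _ => e1 l
    have e3 : ∑ l, ∑ w : InfinitePlace F, w ((B i j l : 𝓞 F) : F) ≤
        ∑ j, ∑ l, ∑ w : InfinitePlace F, w ((B i j l : 𝓞 F) : F) :=
      Finset.single_le_sum (f := fun j => ∑ l, ∑ w : InfinitePlace F, w ((B i j l : 𝓞 F) : F))
        (fun j _ => Finset.sum_nonneg fun l _ => Finset.sum_nonneg fun w _ => apply_nonneg w _)
        (Finset.mem_univ j)
    have e4 : ∑ j, ∑ l, ∑ w : InfinitePlace F, w ((B i j l : 𝓞 F) : F) ≤ S :=
      Finset.single_le_sum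
        (f := fun i => ∑ j, ∑ l, ∑ w : InfinitePlace F, w ((B i j l : 𝓞 F) : F))
        (fun i _ => Finset.sum_nonneg fun j _ => Finset.sum_nonneg fun l _ =>
          Finset.sum_nonneg fun w _ => apply_nonneg w _)
        (Finset.mem_univ i)
    linarith
  nlinarith

/-- the number of all points, upper bound -/
theorem up (N : ℕ) : ∃ C : ℝ, 0 ≤ C ∧ ∀ T : ℝ, 1 ≤ T →
    ({Q : Projectivization F (Fin N → F) | Q.mulHeight ≤ T}.ncard : ℝ) ≤ C * T ^ N := by
  obtain ⟨C, hC, hr⟩ := rep' (F := F)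
  choose lam y h0 h1 h2 using hr N
  have hd : 0 < finrank ℚ F := finrank_pos
  refine ⟨6 ^ (finrank ℚ F * N) * C ^ N, by positivity, fun T hT => ?_⟩
  set R : ℝ := (C * T) ^ (1 / (finrank ℚ F : ℝ)) with hR
  have hCT : 1 ≤ C * T := one_le_mul_of_one_le_of_one_le hC hT
  have hRd : R ^ finrank ℚ F = C * T := root (by linarith) hd
  have hR1 : 1 ≤ R := Real.one_le_rpow hCT (by positivity)
  have h3 := EngT.ball_le (latP F) N R hR1
  have h4 : ({Q : Projectivization F (Fin N → F) | Q.mulHeight ≤ T}.ncard : ℝ) ≤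
      ({x : Fin N → 𝓞 F | ‖io x‖ ≤ R}.ncard : ℝ) := by
    have := Set.ncard_le_ncard_of_injOn (s := {Q : Projectivization F (Fin N → F) |
      Q.mulHeight ≤ T}) (t := {x : Fin N → 𝓞 F | ‖io x‖ ≤ R}) y (by
        intro Q hQ
        have h5 : ‖io (y Q)‖ ^ finrank ℚ F ≤ R ^ finrank ℚ F := by
          rw [hRd]
          exact (h2 Q).trans (mul_le_mul_of_nonneg_left hQ (by linarith))
        exact le_of_pow_le_pow_left₀ hd.ne' (by positivity) h5) (by
        intro Q _ Q' _ h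
        exact Pool.Agent.U239.BI.point_eq (h0 Q) (h0 Q') (h1 Q) (by rw [h]; exact h1 Q'))
      (lat_fin N R)
    exact_mod_cast this
  refine (h4.trans h3).trans (le_of_eq ?_)
  rw [mul_pow, pow_mul R, hRd, mul_pow]
  ring

omit [NumberField F] in
theorem indep_smul {v : Fin k → Fin N → F} (h : LinearIndependent F v) {c : F} (hc : c ≠ 0) :
    LinearIndependent F (fun i => c • v i) := by
  have h4 := h.units_smul fun _ => Units.mk0 c hc
  convert h4 using 1
  funext i
  rfl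

omit [NumberField F] in
theorem indep_smul_iff {v : Fin k → Fin N → F} {c : F} (hc : c ≠ 0) :
    LinearIndependent F (fun i => c • v i) ↔ LinearIndependent F v := by
  refine ⟨fun h => ?_, fun h => indep_smul h hc⟩
  have h1 := indep_smul h (inv_ne_zero hc)
  convert h1 using 1
  funext i
  rw [smul_smul, inv_mul_cancel₀ hc, one_smul]

/-- the fibres -/
theorem fib (hCon : S_CON F) (hBpt : S_BPT F) (hBad : BadP F) (hk : 1 ≤ k) (hN : 3 * k ≤ N)
    {M : Fin k → Matrix (Fin N) (Fin N) F} (hrc : RC M (N - k + 1)) :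
    ∃ c K : ℝ, 0 < c ∧ 1 ≤ K ∧ ∀ P : Projectivization F (Fin N → F),
      LinearIndependent F (fun i => P.rep ᵥ* M i) → ∀ T : ℝ,
        K * P.mulHeight ^ (k * (N - k)) ≤ T → c * T ^ (N - k) / P.mulHeight ^ k ≤
          ({Q : Projectivization F (Fin N → F) | (∀ i, P.rep ⬝ᵥ M i *ᵥ Q.rep = 0) ∧
            LinearIndependent F (fun i => M i *ᵥ Q.rep) ∧ Q.mulHeight ≤ T}.ncard : ℝ) := by
  obtain ⟨D, B, hD, hB⟩ := clear M
  obtain ⟨C0, hC0, hr⟩ := rep' (F := F)
  obtain ⟨CB, hCB, hdr⟩ := dr_bound (tr B)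
  obtain ⟨c, K, hc, hK, hcon⟩ := hCon N k (by omega)
  obtain ⟨C9, hC9, hbpt⟩ := hBpt hBad N k B hk (by omega) (rc_smul hD hB hrc)
  have hd : 0 < finrank ℚ F := finrank_pos
  set d := finrank ℚ F with hddef
  set r := N - k with hrdef
  have hr1 : 1 ≤ r := by omega
  set c8 : ℝ := c / (CB ^ (d * k) * C0 ^ k) with hc8
  have hc80 : 0 < c8 := by positivity
  set K8 : ℝ := K * (CB ^ (d * (k * r)) * C0 ^ (k * r)) with hK8
  have hK81 : 1 ≤ K8 := one_le_mul_of_one_le_of_one_le hK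
    (one_le_mul_of_one_le_of_one_le (one_le_pow₀ hCB) (one_le_pow₀ hC0))
  refine ⟨c8 / 2, K8 + 2 * C9 / c8, by positivity, ?_, fun P hP T hT => ?_⟩
  · have : 0 < 2 * C9 / c8 := by positivity
    linarith
  have hH := one_le_ht P
  have hH0 : 0 < P.mulHeight := by linarith
  have hHm : 1 ≤ P.mulHeight ^ (k * r) := one_le_pow₀ hH
  have h9 : 0 < 2 * C9 / c8 := by positivity
  have hT8 : K8 * P.mulHeight ^ (k * r) ≤ T := by
    refine le_trans ?_ hT
    nlinarith
  have hT9 : 2 * C9 / c8 * P.mulHeight ^ k ≤ T := by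
    have e : P.mulHeight ^ k ≤ P.mulHeight ^ (k * r) :=
      pow_le_pow_right₀ hH (Nat.le_mul_of_pos_right k (by omega))
    refine le_trans ?_ hT
    have : 2 * C9 / c8 * P.mulHeight ^ k ≤ 2 * C9 / c8 * P.mulHeight ^ (k * r) :=
      mul_le_mul_of_nonneg_left e h9.le
    nlinarith
  have hT1 : 1 ≤ T := by nlinarith
  have hT0 : 0 < T := by linarith
  obtain ⟨lam, a, hlam, hco, hsz⟩ := hr N P
  set X : ℝ := (CB ^ d * (C0 * P.mulHeight)) ^ (1 / (d : ℝ)) with hX
  have hXd : X ^ d = CB ^ d * (C0 * P.mulHeight) := root (by positivity) hd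
  have hX1 : 1 ≤ X := Real.one_le_rpow
    (one_le_mul_of_one_le_of_one_le (one_le_pow₀ hCB) (one_le_mul_of_one_le_of_one_le hC0 hH))
    (by positivity)
  have hBt : ∀ i, cm (tr B) i = D • (tr M) i := by
    intro i
    have e : cm (tr B) i = (cm B i)ᵀ := rfl
    rw [e, hB i, Matrix.transpose_smul]
    rfl
  have e1 : ∀ i, co (dr (tr B) a i) = (D * lam) • (P.rep ᵥ* M i) := by
    intro i
    rw [co_dr hBt, hco, Matrix.mulVec_smul, smul_smul]
    congr 1
    exact Matrix.mulVec_transpose (M i) P.rep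
  have hDl : D * lam ≠ 0 := mul_ne_zero hD hlam
  have hLI : LinearIndependent F fun i => co (dr (tr B) a i) := by
    simp only [e1]
    exact indep_smul hP hDl
  have hsize : ∀ i, ‖io (dr (tr B) a i)‖ ≤ X := by
    intro i
    have h1 : ‖io (dr (tr B) a i)‖ ^ d ≤ X ^ d := by
      rw [hXd]
      calc ‖io (dr (tr B) a i)‖ ^ d ≤ (CB * ‖io a‖) ^ d :=
            pow_le_pow_left₀ (norm_nonneg _) (hdr a i) _
        _ = CB ^ d * ‖io a‖ ^ d := mul_pow _ _ _
        _ ≤ CB ^ d * (C0 * P.mulHeight) := mul_le_mul_of_nonneg_left hsz (by positivity)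
    exact le_of_pow_le_pow_left₀ hd.ne' (by positivity) h1
  have hXe : X ^ (d * (k * r)) = CB ^ (d * (k * r)) * (C0 ^ (k * r) * P.mulHeight ^ (k * r)) := by
    rw [pow_mul X, hXd, mul_pow, mul_pow, ← pow_mul]
  have hXk : X ^ (d * k) = CB ^ (d * k) * (C0 ^ k * P.mulHeight ^ k) := by
    rw [pow_mul X, hXd, mul_pow, mul_pow, ← pow_mul]
  have hc1 := hcon (dr (tr B) a) X hX1 hLI hsize T (by
    rw [hXe]
    refine le_trans (le_of_eq ?_) hT8
    rw [hK8]
    ring)
  rw [hXk] at hc1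
  have hc1' : c8 * T ^ r / P.mulHeight ^ k ≤ ({Q : Projectivization F (Fin N → F) |
      (∀ i, co (dr (tr B) a i) ⬝ᵥ Q.rep = 0) ∧ Q.mulHeight ≤ T}.ncard : ℝ) := by
    refine le_trans (le_of_eq ?_) hc1
    rw [hc8]
    field_simp
  obtain ⟨hbf, hb2⟩ := hbpt T hT1
  set Bd := {Q : Projectivization F (Fin N → F) |
      ¬ LinearIndependent F (fun i => cm B i *ᵥ Q.rep) ∧ Q.mulHeight ≤ T} with hBd
  set Al := {Q : Projectivization F (Fin N → F) |
      (∀ i, co (dr (tr B) a i) ⬝ᵥ Q.rep = 0) ∧ Q.mulHeight ≤ T} with hAl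
  set Go := {Q : Projectivization F (Fin N → F) | (∀ i, P.rep ⬝ᵥ M i *ᵥ Q.rep = 0) ∧
            LinearIndependent F (fun i => M i *ᵥ Q.rep) ∧ Q.mulHeight ≤ T} with hGo
  have hGf : Go.Finite := (north N T).subset fun Q hQ => hQ.2.2
  have hsub : Al ⊆ Go ∪ Bd := by
    intro Q hQ
    by_cases hg : LinearIndependent F (fun i => M i *ᵥ Q.rep)
    · left
      refine ⟨fun i => ?_, hg, hQ.2⟩
      have h1 := hQ.1 i
      rw [e1, smul_dotProduct, smul_eq_mul] at h1
      have h2 := (mul_eq_zero.1 h1).resolve_left hDl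
      rw [← Matrix.dotProduct_mulVec] at h2
      exact h2
    · right
      refine ⟨fun h => hg ?_, hQ.2⟩
      have e : (fun i => cm B i *ᵥ Q.rep) = fun i => D • (M i *ᵥ Q.rep) := by
        funext i
        rw [hB i, Matrix.smul_mulVec]
      rw [e] at h
      exact (indep_smul_iff hD).1 h
  have hcard : (Al.ncard : ℝ) ≤ (Go.ncard : ℝ) + (Bd.ncard : ℝ) := by
    have h1 := (Set.ncard_le_ncard hsub (hGf.union hbf)).trans (Set.ncard_union_le _ _)
    exact_mod_cast h1
  have hsmall : C9 * T ^ (2 * k - 2) ≤ c8 / 2 * T ^ r / P.mulHeight ^ k := by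
    rw [le_div_iff₀ (by positivity)]
    have h1 : T ^ (2 * k - 2) * T ≤ T ^ r := by
      rw [← pow_succ]
      exact pow_le_pow_right₀ hT1 (by omega)
    have h2 : C9 * P.mulHeight ^ k ≤ c8 / 2 * T := by
      rw [div_mul_eq_mul_div, div_le_iff₀ hc80] at hT9
      linarith
    calc C9 * T ^ (2 * k - 2) * P.mulHeight ^ k
        = T ^ (2 * k - 2) * (C9 * P.mulHeight ^ k) := by ring
      _ ≤ T ^ (2 * k - 2) * (c8 / 2 * T) := mul_le_mul_of_nonneg_left h2 (by positivity)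
      _ = c8 / 2 * (T ^ (2 * k - 2) * T) := by ring
      _ ≤ c8 / 2 * T ^ r := mul_le_mul_of_nonneg_left h1 (by positivity)
  have hhalf : c8 / 2 * T ^ r / P.mulHeight ^ k = c8 * T ^ r / P.mulHeight ^ k -
      c8 / 2 * T ^ r / P.mulHeight ^ k := by ring
  rw [hhalf]
  linarith

end Pool.Agent.U239.BL
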