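import Mathlib
import Pool.Agent.U239.BL.Glo

/-!
Project BL: the lower bound `c B log B`.
-/

set_option autoImplicit false

namespace Pool.Agent.U239.BL

open scoped Classical
open NumberField Module Matrix
open Pool.Agent.N852.GR
open Pool.Agent.U239.BI (tr)

variable {F : Type} [Field F] [NumberField F] {N k : ℕ}

/-- the good points of the first factor -/
theorem low (hCon : S_CON F) (hBpt : S_BPT F) (hBad : BadP F) (hk : 1 ≤ k) (hN : 3 * k ≤ N)
    {M : Fin k → Matrix (Fin N) (Fin N) F} (hrc : RC M (N - k + 1)) :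
    ∃ c T₀ : ℝ, 0 < c ∧ ∀ T : ℝ, T₀ ≤ T → c * T ^ N ≤
      ({P : Projectivization F (Fin N → F) | LinearIndependent F (fun i => P.rep ᵥ* M i) ∧
        P.mulHeight ≤ T}.ncard : ℝ) := by
  obtain ⟨D, B, hD, hB⟩ := clear M
  obtain ⟨c, K, hc, hK, hcon⟩ := hCon N 0 (by omega)
  have hrc' : RC (cm (tr B)) (N - k + 1) := by
    rw [Pool.Agent.U239.BI.cm_tr]
    exact Pool.Agent.U239.BI.rc_tr (rc_smul hD hB hrc)
  obtain ⟨C9, hC9, hbpt⟩ := hBpt hBad N k (tr B) hk (by omega) hrc'
  refine ⟨c / 2, K + 2 * C9 / c, by positivity, fun T hT => ?_⟩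
  have h9 : 0 < 2 * C9 / c := by positivity
  have hTK : K ≤ T := by linarith
  have hT1 : 1 ≤ T := by linarith
  have hT9 : 2 * C9 / c ≤ T := by linarith
  have h1 := hcon (fun i => i.elim0) 1 le_rfl (linearIndependent_empty_type) (fun i => i.elim0) T
    (by rw [one_pow, mul_one]; exact hTK)
  rw [one_pow, div_one, Nat.sub_zero] at h1
  obtain ⟨hbf, hb2⟩ := hbpt T hT1
  set Bd := {Q : Projectivization F (Fin N → F) |
      ¬ LinearIndependent F (fun i => cm (tr B) i *ᵥ Q.rep) ∧ Q.mulHeight ≤ T} with hBd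
  set Al := {Q : Projectivization F (Fin N → F) |
      (∀ i : Fin 0, co ((fun i => i.elim0 : Fin 0 → Fin N → 𝓞 F) i) ⬝ᵥ Q.rep = 0) ∧
        Q.mulHeight ≤ T} with hAl
  set Go := {P : Projectivization F (Fin N → F) | LinearIndependent F (fun i => P.rep ᵥ* M i) ∧
        P.mulHeight ≤ T} with hGo
  have hGf : Go.Finite := (north N T).subset fun Q hQ => hQ.2
  have hBt : ∀ i, cm (tr B) i = D • (tr M) i := by
    intro i
    have e : cm (tr B) i = (cm B i)ᵀ := rfl
    rw [e, hB i, Matrix.transpose_smul]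
    rfl
  have hsub : Al ⊆ Go ∪ Bd := by
    intro Q hQ
    by_cases hg : LinearIndependent F (fun i => Q.rep ᵥ* M i)
    · exact Or.inl ⟨hg, hQ.2⟩
    · right
      refine ⟨fun h => hg ?_, hQ.2⟩
      have e : (fun i => cm (tr B) i *ᵥ Q.rep) = fun i => D • (Q.rep ᵥ* M i) := by
        funext i
        rw [hBt i, Matrix.smul_mulVec]
        congr 1
        exact Matrix.mulVec_transpose (M i) Q.rep
      rw [e] at h
      exact (indep_smul_iff hD).1 h
  have hcard : (Al.ncard : ℝ) ≤ (Go.ncard : ℝ) + (Bd.ncard : ℝ) := by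
    have h1 := (Set.ncard_le_ncard hsub (hGf.union hbf)).trans (Set.ncard_union_le _ _)
    exact_mod_cast h1
  have hsmall : C9 * T ^ (2 * k - 2) ≤ c / 2 * T ^ N := by
    have h3 : T ^ (2 * k - 2) * T ≤ T ^ N := by
      rw [← pow_succ]
      exact pow_le_pow_right₀ hT1 (by omega)
    have h2 : C9 ≤ c / 2 * T := by
      rw [div_le_iff₀ hc] at hT9
      linarith
    calc C9 * T ^ (2 * k - 2) = T ^ (2 * k - 2) * C9 := by ring
      _ ≤ T ^ (2 * k - 2) * (c / 2 * T) := mul_le_mul_of_nonneg_left h2 (by positivity)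
      _ = c / 2 * (T ^ (2 * k - 2) * T) := by ring
      _ ≤ c / 2 * T ^ N := mul_le_mul_of_nonneg_left h3 (by positivity)
  linarith

/-- the points of the complete intersection -/
def PX (M : Fin k → Matrix (Fin N) (Fin N) F) (B : ℝ) :
    Set (Projectivization F (Fin N → F) × Projectivization F (Fin N → F)) :=
  {z | (∀ i, z.1.rep ⬝ᵥ M i *ᵥ z.2.rep = 0) ∧
    (LinearIndependent F (fun i => z.1.rep ᵥ* M i) ∧
      LinearIndependent F (fun i => M i *ᵥ z.2.rep)) ∧
    (z.1.mulHeight * z.2.mulHeight) ^ (N - k) ≤ B}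

theorem PX_finite (hkN : k < N) (M : Fin k → Matrix (Fin N) (Fin N) F) (B : ℝ) :
    (PX M B).Finite := by
  refine ((north N B).prod (north N B)).subset ?_
  rintro z ⟨-, -, h⟩
  have h1 := one_le_ht z.1
  have h2 := one_le_ht z.2
  have h3 : 1 ≤ z.1.mulHeight * z.2.mulHeight := one_le_mul_of_one_le_of_one_le h1 h2
  have h4 : z.1.mulHeight * z.2.mulHeight ≤ B := (le_self_pow₀ h3 (by omega)).trans h
  constructor
  · show z.1.mulHeight ≤ B
    nlinarith
  · show z.2.mulHeight ≤ B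
    nlinarith

theorem glo (hCon : S_CON F) (hBpt : S_BPT F) (hBad : BadP F) (hLog : S_LOG) (hk : 1 ≤ k)
    (hN : 3 * k ≤ N) {M : Fin k → Matrix (Fin N) (Fin N) F} (hrc : RC M (N - k + 1)) :
    ∃ c B₀ : ℝ, 0 < c ∧ ∀ B : ℝ, B₀ ≤ B → c * B * Real.log B ≤ ((PX M B).ncard : ℝ) := by
  obtain ⟨c1, K, hc1, hK, hfib⟩ := fib hCon hBpt hBad hk hN hrc
  obtain ⟨c2, T₀, hc2, hlow⟩ := low hCon hBpt hBad hk hN hrc
  obtain ⟨C3, hC3, hup⟩ := up (F := F) N
  set r := N - k with hr
  have hr1 : 1 ≤ r := by omega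
  have hrR : (0 : ℝ) < r := by exact_mod_cast (by omega : 0 < r)
  set m := k * r with hm
  let G : Set (Projectivization F (Fin N → F)) :=
    {P | LinearIndependent F (fun i => P.rep ᵥ* M i)}
  have hGf : ∀ T : ℝ, {P : Projectivization F (Fin N → F) |
      LinearIndependent F (fun i => P.rep ᵥ* M i) ∧ P.mulHeight ≤ T}.Finite := fun T =>
    (north N T).subset fun Q hQ => hQ.2
  let S : ℝ → Finset (Projectivization F (Fin N → F)) := fun T => (hGf T).toFinset
  have hS : ∀ T x, x ∈ S T ↔ x ∈ G ∧ x.mulHeight ≤ T := fun T x => by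
    simp only [S, Set.Finite.mem_toFinset]
    rfl
  have hScard : ∀ T, ((S T).card : ℝ) = ({P : Projectivization F (Fin N → F) |
      LinearIndependent F (fun i => P.rep ᵥ* M i) ∧ P.mulHeight ≤ T}.ncard : ℝ) := fun T => by
    rw [Set.ncard_eq_toFinset_card _ (hGf T)]
  obtain ⟨c', X₀, hc', hlog⟩ := hLog N (Projectivization F (Fin N → F)) (fun P => P.mulHeight) G
    c2 C3 T₀ S (by omega) hc2 (fun x => one_le_ht x) hS (fun T hT => by
      rw [hScard]
      exact hlow T hT) (fun T hT => by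
      rw [hScard]
      refine le_trans ?_ (hup T hT)
      have h1 : {P : Projectivization F (Fin N → F) |
        LinearIndependent F (fun i => P.rep ᵥ* M i) ∧ P.mulHeight ≤ T} ⊆
          {P : Projectivization F (Fin N → F) | P.mulHeight ≤ T} := fun P hP => hP.2
      exact_mod_cast Set.ncard_le_ncard h1 (north N T))
  set X1 : ℝ := max X₀ 1 with hX1
  have hX11 : 1 ≤ X1 := le_max_right _ _
  set κ : ℝ := 1 / (2 * r * (m + 1)) with hκ
  have hκ0 : 0 < κ := by positivity
  refine ⟨c1 * c' * κ, K ^ (2 * r) + (K * X1 ^ (m + 1)) ^ r, by positivity, fun B hB => ?_⟩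
  have hK2 : (1 : ℝ) ≤ K ^ (2 * r) := one_le_pow₀ hK
  have hKX : (1 : ℝ) ≤ (K * X1 ^ (m + 1)) ^ r :=
    one_le_pow₀ (one_le_mul_of_one_le_of_one_le hK (one_le_pow₀ hX11))
  have hB1 : 1 ≤ B := by linarith
  have hB0 : 0 < B := by linarith
  have hK0 : 0 < K := by linarith
  set Y : ℝ := B ^ (1 / (r : ℝ)) with hY
  have hYr : Y ^ r = B := root hB0.le (by omega)
  have hY0 : 0 < Y := Real.rpow_pos_of_pos hB0 _
  have hYK : K * X1 ^ (m + 1) ≤ Y := by
    have h1 : (K * X1 ^ (m + 1)) ^ r ≤ Y ^ r := by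
      rw [hYr]
      linarith
    exact le_of_pow_le_pow_left₀ (by omega) hY0.le h1
  set Z : ℝ := (Y / K) ^ (1 / ((m + 1 : ℕ) : ℝ)) with hZ
  have hZm : Z ^ (m + 1) = Y / K := root (by positivity) (by omega)
  have hZ0 : 0 < Z := Real.rpow_pos_of_pos (by positivity) _
  have hZX : X1 ≤ Z := by
    have h1 : X1 ^ (m + 1) ≤ Z ^ (m + 1) := by
      rw [hZm, le_div_iff₀ hK0]
      linarith
    exact le_of_pow_le_pow_left₀ (by omega) hZ0.le h1
  have hlogZ : κ * Real.log B ≤ Real.log Z := by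
    have h1 : Real.log Z = 1 / ((m + 1 : ℕ) : ℝ) * (Real.log B / r - Real.log K) := by
      rw [hZ, Real.log_rpow (by positivity), Real.log_div hY0.ne' hK0.ne', hY,
        Real.log_rpow hB0]
      ring
    have h2 : 2 * r * Real.log K ≤ Real.log B := by
      have h3 : Real.log (K ^ (2 * r)) ≤ Real.log B :=
        Real.log_le_log (by positivity) (by linarith)
      rw [Real.log_pow] at h3
      push_cast at h3
      exact h3
    rw [h1, hκ]
    have h4 : Real.log K ≤ Real.log B / (2 * r) := by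
      rw [le_div_iff₀ (by positivity)]
      linarith
    have h5 : Real.log B / r - Real.log K ≥ Real.log B / (2 * r) := by
      have : Real.log B / r = Real.log B / (2 * r) + Real.log B / (2 * r) := by
        field_simp
        ring
      linarith
    calc 1 / (2 * r * (m + 1)) * Real.log B
        = 1 / ((m + 1 : ℕ) : ℝ) * (Real.log B / (2 * r)) := by
          push_cast
          field_simp
      _ ≤ 1 / ((m + 1 : ℕ) : ℝ) * (Real.log B / r - Real.log K) :=
          mul_le_mul_of_nonneg_left h5 (by positivity)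
  -- the fibres
  let W : Set (Projectivization F (Fin N → F) × Projectivization F (Fin N → F)) :=
    {z | z ∈ PX M B ∧ z.1 ∈ S Z}
  have hWf : W.Finite := (PX_finite (by omega) M B).subset fun z hz => hz.1
  have hW1 : (W.ncard : ℝ) ≤ ((PX M B).ncard : ℝ) := by
    have h1 : W ⊆ PX M B := fun z hz => hz.1
    exact_mod_cast Set.ncard_le_ncard h1 (PX_finite (by omega) M B)
  refine le_trans ?_ hW1
  rw [EngT.ncard_fib W hWf (S Z) (fun z hz => hz.2)]
  push_cast
  have hfibre : ∀ P ∈ S Z, c1 * B * (1 / P.mulHeight ^ N) ≤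
      ({Q | (P, Q) ∈ W}.ncard : ℝ) := by
    intro P hP
    have hP' := (hS Z P).1 hP
    have hH := one_le_ht P
    have hH0 : 0 < P.mulHeight := by linarith
    have hT : K * P.mulHeight ^ m ≤ Y / P.mulHeight := by
      rw [le_div_iff₀ hH0, mul_assoc, ← pow_succ]
      have h1 : P.mulHeight ^ (m + 1) ≤ Z ^ (m + 1) := pow_le_pow_left₀ hH0.le hP'.2 _
      rw [hZm, le_div_iff₀ hK0] at h1
      linarith
    have h1 := hfib P hP'.1 (Y / P.mulHeight) hT
    have e : c1 * (Y / P.mulHeight) ^ r / P.mulHeight ^ k = c1 * B * (1 / P.mulHeight ^ N) := by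
      have hNk : P.mulHeight ^ N = P.mulHeight ^ r * P.mulHeight ^ k := by
        rw [← pow_add]
        congr 1
        omega
      rw [div_pow, hYr, hNk]
      field_simp
    rw [e] at h1
    refine h1.trans ?_
    have hsub : {Q : Projectivization F (Fin N → F) | (∀ i, P.rep ⬝ᵥ M i *ᵥ Q.rep = 0) ∧
        LinearIndependent F (fun i => M i *ᵥ Q.rep) ∧ Q.mulHeight ≤ Y / P.mulHeight} ⊆
        {Q | (P, Q) ∈ W} := by
      rintro Q ⟨h2, h3, h4⟩
      refine ⟨⟨h2, ⟨hP'.1, h3⟩, ?_⟩, hP⟩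
      show (P.mulHeight * Q.mulHeight) ^ r ≤ B
      have hQ := one_le_ht Q
      have h5 : P.mulHeight * Q.mulHeight ≤ Y := by
        rw [le_div_iff₀ hH0] at h4
        linarith
      calc (P.mulHeight * Q.mulHeight) ^ r ≤ Y ^ r :=
            pow_le_pow_left₀ (by positivity) h5 _
        _ = B := hYr
    have hfin : {Q | (P, Q) ∈ W}.Finite := by
      refine (hWf.image Prod.snd).subset ?_
      intro Q hQ
      exact ⟨(P, Q), hQ, rfl⟩
    exact_mod_cast Set.ncard_le_ncard hsub hfin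
  refine le_trans ?_ (Finset.sum_le_sum hfibre)
  rw [← Finset.mul_sum]
  have h6 := hlog Z ((le_max_left _ _).trans hZX)
  calc c1 * c' * κ * B * Real.log B = c1 * B * (c' * (κ * Real.log B)) := by ring
    _ ≤ c1 * B * (c' * Real.log Z) := by gcongr
    _ ≤ c1 * B * ∑ x ∈ S Z, 1 / x.mulHeight ^ N :=
        mul_le_mul_of_nonneg_left h6 (by positivity)

end Pool.Agent.U239.BL
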